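import Pool.Agent.Run7.h496.Tri2

/-!
Every 4-connected graph without a vertex meeting all odd cycles which has a triangle meeting all
odd cycles contains a totally odd subdivision of `K_4`.
-/

set_option autoImplicit false

namespace Pool.Agent.Results.MP_2394d2_co.TriangleTransversal

open Pool.Agent.Run7.h496

theorem result :
    ∀ (V : Type) [Fintype V] (G : SimpleGraph V),
      5 ≤ Fintype.card V →
      (∀ S : Finset V, S.card ≤ 3 → (G.induce ((↑S : Set V)ᶜ)).Connected) →
      (∀ v : V, ¬ (G.induce {w : V | w ≠ v}).Colorable 2) →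
      (∃ x y z : V, G.Adj x y ∧ G.Adj x z ∧ G.Adj y z ∧
        (G.induce {w : V | w ≠ x ∧ w ≠ y ∧ w ≠ z}).Colorable 2) →
      ∃ (a : Fin 4 → V) (P : ∀ i j : Fin 4, G.Walk (a i) (a j)),
        Function.Injective a ∧
        (∀ i j : Fin 4, i < j → (P i j).IsPath ∧ Odd (P i j).length) ∧
        (∀ i j m : Fin 4, i < j → a m ∈ (P i j).support → m = i ∨ m = j) ∧
        (∀ i j k l : Fin 4, i < j → k < l → (i, j) ≠ (k, l) →
          ∀ x, x ∈ (P i j).support → x ∈ (P k l).support → ∃ m, x = a m) := by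
  intro V _ G h5 hc ht hD
  obtain ⟨x, y, z, hxy, hxz, hyz, hcol⟩ := hD
  exact toks_T4 ⟨h5, hc⟩ (tau2_of_not_colorable ht) hxy hxz hyz (col_of_colorable hcol)

end Pool.Agent.Results.MP_2394d2_co.TriangleTransversal
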