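import Pool.Agent.Run7.h496.Tri2

/-!
Every 4-connected graph without a vertex meeting all odd cycles which has two triangles with a
common edge contains a totally odd subdivision of `K_4`.
-/

set_option autoImplicit false

namespace Pool.Agent.Results.MP_2394d2_co.TrianglesSharingEdge

open Pool.Agent.Run7.h496

theorem result :
    ∀ (V : Type) [Fintype V] (G : SimpleGraph V),
      5 ≤ Fintype.card V →
      (∀ S : Finset V, S.card ≤ 3 → (G.induce ((↑S : Set V)ᶜ)).Connected) →
      (∀ v : V, ¬ (G.induce {w : V | w ≠ v}).Colorable 2) →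
      (∃ x y p q : V, p ≠ q ∧ G.Adj x y ∧ G.Adj x p ∧ G.Adj y p ∧ G.Adj x q ∧ G.Adj y q) →
      ∃ (a : Fin 4 → V) (P : ∀ i j : Fin 4, G.Walk (a i) (a j)),
        Function.Injective a ∧
        (∀ i j : Fin 4, i < j → (P i j).IsPath ∧ Odd (P i j).length) ∧
        (∀ i j m : Fin 4, i < j → a m ∈ (P i j).support → m = i ∨ m = j) ∧
        (∀ i j k l : Fin 4, i < j → k < l → (i, j) ≠ (k, l) →
          ∀ x, x ∈ (P i j).support → x ∈ (P k l).support → ∃ m, x = a m) := by
  intro V _ G h5 hc ht hD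
  obtain ⟨x, y, p, q, hpq, hxy, hxp, hyp, hxq, hyq⟩ := hD
  exact toks_diamond ⟨h5, hc⟩ (tau2_of_not_colorable ht) hxy hxp hyp hxq hyq hpq

end Pool.Agent.Results.MP_2394d2_co.TrianglesSharingEdge
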